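import Pool.Agent.helper97.IRO.Spec

set_option autoImplicit false

/-!
# Row iro:ME3: the almost sure type of the interior intervals
-/

open MeasureTheory Pool.Agent.LOF

namespace Pool.Agent.IRO

lemma ME3_conj_meas (g : F) : Measurable (conj g : LO F → LO F) := by
  apply Measurable.subtype_mk
  apply measurable_pi_lambda
  intro p
  exact (measurable_pi_apply (p.1 * g, p.2 * g)).comp measurable_subtype_coe

lemma ME3_dyadic_half {a b : ℝ} (ha : IsDyadic a) (hb : IsDyadic b) : IsDyadic ((a + b) / 2) := by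
  have h := (ha.add hb).pow_mul (-1)
  have e : (2 : ℝ) ^ (-1 : ℤ) * (a + b) = (a + b) / 2 := by
    rw [zpow_neg_one]; ring
  rwa [e] at h

/-- an almost sure inclusion between sets of the same measure can be reversed -/
lemma ME3_rev {X : Type} [MeasurableSpace X] {ν : Measure X} [IsFiniteMeasure ν] {s t : Set X}
    (hs : MeasurableSet s) (h1 : ∀ᵐ r ∂ν, r ∈ s → r ∈ t) (h2 : ν t = ν s) :
    ∀ᵐ r ∂ν, r ∈ t → r ∈ s := by
  have h3 : s ≤ᵐ[ν] t := h1
  have h4 := ae_eq_of_ae_subset_of_measure_ge h3 h2.le hs.nullMeasurableSet (measure_ne_top ν t)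
  exact h4.symm.le

/-- `F` is transitive on the interior dyadic intervals -/
lemma ME3_trans (hG5 : G5_stmt) {a b c d : ℝ} (h : Dyi a b) (h' : Dyi c d) :
    ∃ g : F, g.1 a = c ∧ g.1 b = d := by
  obtain ⟨ha, hb, ha0, hab, hb1⟩ := h
  obtain ⟨hc, hd, hc0, hcd, hd1⟩ := h'
  obtain ⟨g, hg⟩ := hG5 2 ![a, b] ![c, d]
    (by
      intro i
      fin_cases i
      · exact ⟨ha, ha0, hab.trans hb1⟩
      · exact ⟨hb, ha0.trans hab, hb1⟩)
    (by
      intro i
      fin_cases i
      · exact ⟨hc, hc0, hcd.trans hd1⟩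
      · exact ⟨hd, hc0.trans hcd, hd1⟩)
    (by
      intro i j hij
      fin_cases i <;> fin_cases j
      · exact absurd hij (lt_irrefl _)
      · exact hab
      · exact absurd hij (by decide)
      · exact absurd hij (lt_irrefl _))
    (by
      intro i j hij
      fin_cases i <;> fin_cases j
      · exact absurd hij (lt_irrefl _)
      · exact hcd
      · exact absurd hij (by decide)
      · exact absurd hij (lt_irrefl _))
  exact ⟨g, hg 0, hg 1⟩

theorem ME3 (hT1 : T1_stmt) (hT3 : T3_stmt) (hT4 : T4_stmt) (hME1 : ME1_stmt) (hME2 : ME2_stmt)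
    (hG5 : G5_stmt) : ME3_stmt := by
  intro ν _ hinv
  obtain ⟨mA, mB, _, hact, _⟩ := hME2
  have hconr := hME1 ν hinv
  -- the measures do not depend on the interval
  have eA : ∀ a b c d, Dyi a b → Dyi c d →
      ν {r : LO F | Aty (Pr r) a b} = ν {r : LO F | Aty (Pr r) c d} := by
    intro a b c d h h'
    obtain ⟨g, rfl, rfl⟩ := ME3_trans hG5 h h'
    have h1 : conj g ⁻¹' {r : LO F | Aty (Pr r) (g.1 a) (g.1 b)} =
        {r : LO F | Aty (Pr r) a b} := by
      ext r
      exact (hact g r a b).1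
    rw [← h1, ← Measure.map_apply (ME3_conj_meas g) (mA _ _), hinv g]
  have eB : ∀ a b c d, Dyi a b → Dyi c d →
      ν {r : LO F | Bty (Pr r) a b} = ν {r : LO F | Bty (Pr r) c d} := by
    intro a b c d h h'
    obtain ⟨g, rfl, rfl⟩ := ME3_trans hG5 h h'
    have h1 : conj g ⁻¹' {r : LO F | Bty (Pr r) (g.1 a) (g.1 b)} =
        {r : LO F | Bty (Pr r) a b} := by
      ext r
      exact (hact g r a b).2
    rw [← h1, ← Measure.map_apply (ME3_conj_meas g) (mB _ _), hinv g]
  -- moving the right end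
  have s1 : ∀ a b b', Dyi a b → Dyi a b' → b < b' →
      ∀ᵐ r ∂ν, (Aty (Pr r) a b ↔ Aty (Pr r) a b') ∧ (Aty (Pr r) a b' → ¬ Bty (Pr r) a b) := by
    intro a b b' h h' hbb
    have h1 : ∀ᵐ r ∂ν, Aty (Pr r) a b' → Aty (Pr r) a b ∧ ¬ Bty (Pr r) a b := by
      filter_upwards [hconr] with r hr
      exact hT3 (Pr r) (cone_LO r) hr a b b' h.dy h'.dy hbb
    have h2 := ME3_rev (ν := ν) (s := {r : LO F | Aty (Pr r) a b'})
      (t := {r : LO F | Aty (Pr r) a b}) (mA _ _)
      (by filter_upwards [h1] with r hr h3; exact (hr h3).1) (eA _ _ _ _ h h')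
    filter_upwards [h1, h2] with r hr hr'
    exact ⟨⟨fun h3 => hr' h3, fun h3 => (hr h3).1⟩, fun h3 => (hr h3).2⟩
  -- exactly one of the types
  have s2 : ∀ a b, Dyi a b → ∀ᵐ r ∂ν, (Bty (Pr r) a b ↔ ¬ Aty (Pr r) a b) := by
    intro a b h
    have h' : Dyi a ((b + 1) / 2) := by
      obtain ⟨ha, hb, ha0, hab, hb1⟩ := h
      have d1 : IsDyadic (1 : ℝ) := by simpa using IsDyadic.int 1
      exact ⟨ha, ME3_dyadic_half hb d1, ha0, by linarith, by linarith⟩
    have hbb : b < (b + 1) / 2 := by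
      obtain ⟨_, _, _, _, hb1⟩ := h
      linarith
    filter_upwards [hconr, s1 a b _ h h' hbb] with r hr hr'
    constructor
    · intro h1 h2
      exact hr'.2 (hr'.1.1 h2) h1
    · intro h1
      exact (hT1 (Pr r) (cone_LO r) hr a b h.dy).resolve_left h1
  -- moving the left end
  have s3 : ∀ a' a b, Dyi a b → Dyi a' b → a' < a →
      ∀ᵐ r ∂ν, (Aty (Pr r) a' b ↔ Aty (Pr r) a b) := by
    intro a' a b h h' haa
    have h1 : ∀ᵐ r ∂ν, Bty (Pr r) a' b → Bty (Pr r) a b := by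
      filter_upwards [hconr] with r hr h3
      exact (hT4 (Pr r) (cone_LO r) hr a' a b h.dy h'.dy haa h3).1
    have h2 := ME3_rev (ν := ν) (s := {r : LO F | Bty (Pr r) a' b})
      (t := {r : LO F | Bty (Pr r) a b}) (mB _ _) h1 (eB _ _ _ _ h h')
    filter_upwards [h1, h2, s2 _ _ h, s2 _ _ h'] with r r1 r2 r3 r4
    constructor
    · intro h5
      by_contra h6
      exact r4.1 (r2 (r3.2 h6)) h5
    · intro h5
      by_contra h6
      exact r3.1 (r1 (r4.2 h6)) h5
  -- weak forms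
  have s1' : ∀ a b b', Dyi a b → Dyi a b' → b ≤ b' →
      ∀ᵐ r ∂ν, (Aty (Pr r) a b ↔ Aty (Pr r) a b') := by
    intro a b b' h h' hbb
    rcases hbb.lt_or_eq with h1 | h1
    · filter_upwards [s1 a b b' h h' h1] with r hr
      exact hr.1
    · subst h1
      filter_upwards with r
      exact Iff.rfl
  have s3' : ∀ a c b, Dyi a b → Dyi c b → ∀ᵐ r ∂ν, (Aty (Pr r) a b ↔ Aty (Pr r) c b) := by
    intro a c b h h'
    rcases lt_trichotomy a c with h1 | h1 | h1
    · exact s3 a c b h' h h1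
    · subst h1
      filter_upwards with r
      exact Iff.rfl
    · filter_upwards [s3 c a b h h' h1] with r hr
      exact hr.symm
  have s4 : ∀ a b c d, Dyi a b → Dyi c d → ∀ᵐ r ∂ν, (Aty (Pr r) a b ↔ Aty (Pr r) c d) := by
    intro a b c d h h'
    have hm : IsDyadic (max b d) := by
      rcases max_choice b d with h1 | h1 <;> rw [h1]
      · exact h.2.1
      · exact h'.2.1
    have hm1 : max b d < 1 := max_lt h.2.2.2.2 h'.2.2.2.2
    have i1 : Dyi a (max b d) :=
      ⟨h.1, hm, h.2.2.1, h.2.2.2.1.trans_le (le_max_left _ _), hm1⟩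
    have i2 : Dyi c (max b d) :=
      ⟨h'.1, hm, h'.2.2.1, h'.2.2.2.1.trans_le (le_max_right _ _), hm1⟩
    filter_upwards [s1' a b _ h i1 (le_max_left _ _), s3' a c _ i1 i2,
      s1' c d _ h' i2 (le_max_right _ _)] with r r1 r2 r3
    exact r1.trans (r2.trans r3.symm)
  -- all intervals at once
  have dq : Dyi (1 / 4) (1 / 2) := by
    refine ⟨⟨1, 2, by norm_num⟩, ⟨1, 1, by norm_num⟩, by norm_num, by norm_num, by norm_num⟩
  have s5 : ∀ᵐ r ∂ν, ∀ x y : {x : ℝ // IsDyadic x}, Dyi x.1 y.1 →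
      (Aty (Pr r) x.1 y.1 ↔ Aty (Pr r) (1 / 4) (1 / 2)) ∧
      (Bty (Pr r) x.1 y.1 ↔ ¬ Aty (Pr r) x.1 y.1) := by
    rw [ae_all_iff]
    intro x
    rw [ae_all_iff]
    intro y
    by_cases h : Dyi x.1 y.1
    · filter_upwards [s4 _ _ _ _ h dq, s2 _ _ h] with r r1 r2 _
      exact ⟨r1, r2⟩
    · filter_upwards with r h'
      exact absurd h' h
  filter_upwards [s5] with r hr
  by_cases h : Aty (Pr r) (1 / 4) (1 / 2)
  · right
    intro a b hab h1
    have h2 := hr ⟨a, hab.1⟩ ⟨b, hab.2.1⟩ hab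
    exact h2.2.1 h1 (h2.1.2 h)
  · left
    intro a b hab h1
    have h2 := hr ⟨a, hab.1⟩ ⟨b, hab.2.1⟩ hab
    exact h (h2.1.1 h1)

end Pool.Agent.IRO
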