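import Pool.Agent.helper97.IRO.Spec

set_option autoImplicit false

/-!
# Row iro:T7a: the kind with a sign
-/

open MeasureTheory Pool.Agent.LOF

namespace Pool.Agent.IRO

lemma T7a_dyadic_half {a b : ℝ} (ha : IsDyadic a) (hb : IsDyadic b) : IsDyadic ((a + b) / 2) := by
  have h := (ha.add hb).pow_mul (-1)
  have e : (2 : ℝ) ^ (-1 : ℤ) * (a + b) = (a + b) / 2 := by
    rw [zpow_neg_one]; ring
  rwa [e] at h

/-- the germ of the inverse -/
lemma T7a_gL_inv {g : ℝ ≃o ℝ} {b : ℝ} {k : ℤ} (h : gL g b k) : gL g⁻¹ b (-k) := by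
  obtain ⟨e, he, h1⟩ := h
  have hgb : g b = b := by
    have := h1 b he le_rfl
    rw [this]; ring
  refine ⟨g e, ?_, fun w hw1 hw2 => ?_⟩
  · have := g.strictMono he; rwa [hgb] at this
  · have hg : g ((g⁻¹ : ℝ ≃o ℝ) w) = w := g.apply_symm_apply w
    have i1 : e < (g⁻¹ : ℝ ≃o ℝ) w := by rw [← g.lt_iff_lt, hg]; exact hw1
    have i2 : (g⁻¹ : ℝ ≃o ℝ) w ≤ b := by rw [← g.le_iff_le, hg, hgb]; exact hw2
    have h2 := h1 _ i1 i2
    rw [hg] at h2
    have h3 : (2 : ℝ) ^ (-k) * 2 ^ k = 1 := by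
      rw [← zpow_add₀ (by norm_num)]; simp
    have h5 : w - b = 2 ^ k * ((g⁻¹ : ℝ ≃o ℝ) w - b) := by linear_combination h2
    have h4 : (2 : ℝ) ^ (-k) * (w - b) = (2 ^ (-k) * 2 ^ k) * ((g⁻¹ : ℝ ≃o ℝ) w - b) := by
      calc (2 : ℝ) ^ (-k) * (w - b) = 2 ^ (-k) * (2 ^ k * ((g⁻¹ : ℝ ≃o ℝ) w - b)) := by rw [← h5]
        _ = _ := by ring
    rw [h4, h3, one_mul]; ring

lemma T7a_gL_down {g : ℝ ≃o ℝ} {b : ℝ} {k : ℤ} (hk : 0 < k) (h : gL g b k) : Down g b := by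
  obtain ⟨e, he, h1⟩ := h
  refine ⟨e, he, fun z hz1 hz2 => ?_⟩
  rw [h1 z hz1 hz2.le]
  have : 1 < (2 : ℝ) ^ k := one_lt_zpow₀ (by norm_num) hk
  nlinarith

lemma T7a_gL_up {g : ℝ ≃o ℝ} {b : ℝ} {k : ℤ} (hk : k < 0) (h : gL g b k) : Up g b := by
  obtain ⟨e, he, h1⟩ := h
  refine ⟨e, he, fun z hz1 hz2 => ?_⟩
  rw [h1 z hz1 hz2.le]
  have : (2 : ℝ) ^ k < 1 := zpow_lt_one_of_neg₀ (by norm_num) hk
  nlinarith

lemma T7a_gL_zero {g : ℝ ≃o ℝ} {b : ℝ} (h : gL g b 0) : ¬ (Up g b ∨ Down g b) := by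
  obtain ⟨e, he, h1⟩ := h
  rintro (⟨e', he', h2⟩ | ⟨e', he', h2⟩)
  · obtain ⟨z, hz1, hz2⟩ := exists_between (max_lt he he')
    rw [max_lt_iff] at hz1
    have h3 := h2 z hz1.2 hz2
    rw [h1 z hz1.1 hz2.le] at h3
    simp at h3
  · obtain ⟨z, hz1, hz2⟩ := exists_between (max_lt he he')
    rw [max_lt_iff] at hz1
    have h3 := h2 z hz1.2 hz2
    rw [h1 z hz1.1 hz2.le] at h3
    simp at h3

lemma T7a_cone_inv {G : Type} [Group G] {P : G → Prop} (hP : Cone P) {g : G} (hg : g ≠ 1) :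
    P g⁻¹ ↔ ¬ P g := by
  constructor
  · intro h1 h2
    exact hP.anti g h2 h1
  · intro h1
    exact (hP.tri g hg).resolve_left h1

theorem T7a (hT3 : T3_stmt) (hT5s : T5s_stmt) (hG1 : G1_stmt) (hG4 : G4_stmt) : T7a_stmt := by
  classical
  intro P hP hC hA hA0
  -- no `A` on `[0,b]`
  have hA1 : ∀ b, IsDyadic b → 0 < b → b ≤ 1 → ¬ Aty P 0 b := by
    intro b hb hb0 hb1 hAb
    rcases lt_or_eq_of_le hb1 with h | h
    · exact hA0 b hb hb0 h hAb
    · subst h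
      have d0 : IsDyadic (0 : ℝ) := by simpa using IsDyadic.int 0
      have d2 : IsDyadic ((0 + 1) / 2 : ℝ) := T7a_dyadic_half d0 hb
      have h1 := hT3 P hP hC 0 ((0 + 1) / 2) 1 ⟨d0, d2, le_rfl, by norm_num, by norm_num⟩
        ⟨d0, hb, le_rfl, by norm_num, le_rfl⟩ (by norm_num) hAb
      exact hA0 _ d2 (by norm_num) (by norm_num) h1.1
  -- the test elements
  have hu : ∀ y : DD, ∃ u : F, u ∈ FI 0 y.1 ∧ gL u.1 y.1 1 := by
    intro y
    obtain ⟨a', _, ha', _, u, hu1, hu2⟩ := (hG4 0 y.1 le_rfl y.2.2.1 y.2.2.2).1 y.2.1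
    exact ⟨u, FI_mono ha'.le le_rfl hu1, hu2⟩
  choose u hu1 hu2 using hu
  have hune : ∀ y, u y ≠ 1 := by
    intro y h
    have h1 := T7a_gL_down one_pos (hu2 y)
    rw [h] at h1
    obtain ⟨e, he, h2⟩ := h1
    obtain ⟨z, hz1, hz2⟩ := exists_between he
    exact lt_irrefl z (h2 z hz1 hz2)
  refine ⟨fun y => decide (P (u y)⁻¹), fun g => ?_⟩
  by_cases hg1 : g = 1
  · subst hg1
    constructor
    · intro h; exact absurd h hP.ne
    · intro h
      exact absurd h (not_pos_one _)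
  · have hg1' : g.1 ≠ 1 := fun h => hg1 (Subtype.ext h)
    obtain ⟨y, hy1, hy2, hy⟩ := exists_top g.2 hg1'
    have hgy : g.1 y = y := hy.1 y le_rfl
    obtain ⟨k, hk, _⟩ := (hG1 g y hgy).1
    have hk : gL g.1 y k := hk
    have dy : Dy 0 y := ⟨by simpa using IsDyadic.int 0, hy1, le_rfl, hy2.1, hy2.2⟩
    have hgF : g ∈ FI 0 y := by
      intro x hx
      by_cases h1 : y ≤ x
      · exact hy.1 x h1
      · refine F.out g.2 fun h2 => hx ⟨h2.1, not_le.1 h1⟩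
    have hA2 := hA1 y hy1 hy2.1 hy2.2
    set Y : DD := ⟨y, hy1, hy2⟩ with hY
    rw [pos_iff (y := Y) hy]
    have hun := T7a_cone_inv hP (hune Y)
    rcases lt_trichotomy k 0 with hk0 | hk0 | hk0
    · -- moving up
      have hup : Up g.1 y := T7a_gL_up hk0 hk
      have hnd : ¬ Down g.1 y := fun h => not_up_down hup h
      have h1 : gL (g⁻¹ : F).1 y (-k) := T7a_gL_inv hk
      have h2 := hT5s P hP hC 0 y g⁻¹ (u Y) (-k) 1 dy ((FI 0 y).inv_mem hgF) (hu1 Y)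
        (by omega) one_pos hA2 h1 (hu2 Y)
      have h3 : P g ↔ P (u Y)⁻¹ := by
        rw [hun, ← h2, T7a_cone_inv hP hg1, not_not]
      rw [h3]
      constructor
      · intro h
        exact Or.inl ⟨hup, by simpa using h⟩
      · rintro (⟨_, h⟩ | ⟨h, _⟩)
        · simpa using h
        · exact absurd h hnd
    · exfalso
      subst hk0
      exact T7a_gL_zero hk hy.2
    · have hdn : Down g.1 y := T7a_gL_down hk0 hk
      have hnu : ¬ Up g.1 y := fun h => not_up_down h hdn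
      have h2 := hT5s P hP hC 0 y g (u Y) k 1 dy hgF (hu1 Y) hk0 one_pos hA2 hk (hu2 Y)
      rw [h2]
      constructor
      · intro h
        refine Or.inr ⟨hdn, ?_⟩
        rw [decide_eq_false_iff_not, hun, not_not]
        exact h
      · rintro (⟨h, _⟩ | ⟨_, h⟩)
        · exact absurd h hnu
        · rw [decide_eq_false_iff_not, hun, not_not] at h
          exact h

end Pool.Agent.IRO
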